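import Pool.Agent.N880.QF.Stm
import Pool.Agent.H268R2.RZ_HT

/-!
Project QF (helper880), lemmas L5 - L8 (helper253).
-/

set_option autoImplicit false

open Filter Topology MeasureTheory Set
open Pool.Agent.H306R2.RZ (js)
open Pool.Agent.N880.QF

namespace Pool.Agent.N253.QF

/-! ### L5 -/

theorem gd_nonneg {τ : ℝ} (hτ : 0 < τ) (r : ℝ) : 0 ≤ gd τ r := by
  unfold gd; positivity

theorem gd_cont (τ : ℝ) : Continuous (gd τ) := by
  unfold gd; fun_prop

theorem gd_mul (τ c : ℝ) (hτ : 0 < τ) (r : ℝ) : gd τ r * Real.exp (c * r) =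
    (τ / (2 * Real.sqrt Real.pi) * Real.exp (c ^ 2 / τ ^ 2)) *
      Real.exp (-(τ ^ 2 / 4) * (r - 2 * c / τ ^ 2) ^ 2) := by
  unfold gd
  rw [mul_assoc, mul_assoc, ← Real.exp_add, ← Real.exp_add]
  congr 2
  field_simp
  ring

theorem gd_main : S_gd := by
  intro τ c hτ
  have hb : 0 < τ ^ 2 / 4 := by positivity
  have h1 : (fun r => gd τ r * Real.exp (c * r)) = fun r =>
      (τ / (2 * Real.sqrt Real.pi) * Real.exp (c ^ 2 / τ ^ 2)) *
      Real.exp (-(τ ^ 2 / 4) * (r - 2 * c / τ ^ 2) ^ 2) := by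
    ext r; exact gd_mul τ c hτ r
  rw [h1]
  constructor
  · exact ((integrable_exp_neg_mul_sq hb).comp_sub_right (2 * c / τ ^ 2)).const_mul _
  · rw [integral_const_mul, integral_sub_right_eq_self (fun r : ℝ =>
      Real.exp (-(τ ^ 2 / 4) * r ^ 2)) (2 * c / τ ^ 2), integral_gaussian]
    have h2 : Real.pi / (τ ^ 2 / 4) = (2 * Real.sqrt Real.pi / τ) ^ 2 := by
      rw [div_pow, mul_pow, Real.sq_sqrt Real.pi_pos.le]
      field_simp
      ring
    rw [h2, Real.sqrt_sq (by positivity)]
    have h3 : Real.sqrt Real.pi ≠ 0 := (Real.sqrt_pos.mpr Real.pi_pos).ne'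
    field_simp

/-! ### L6 -/

theorem he_le_one (x r : ℝ) : he x r ≤ 1 := by
  unfold he
  apply Real.exp_le_one_iff.mpr
  have := Real.pi_pos
  have : 0 ≤ Real.pi * (x * Real.exp (-r)) ^ 2 := by positivity
  linarith

theorem he_pos (x r : ℝ) : 0 < he x r := Real.exp_pos _

theorem he_cont (x : ℝ) : Continuous (he x) := by
  unfold he; fun_prop

theorem int_base {τ : ℝ} (hτ : 0 < τ) (c : ℝ) :
    Integrable (fun r => gd τ r * Real.exp (c * r)) := (gd_main τ c hτ).1

theorem int_term {τ : ℝ} (hτ : 0 < τ) (x : ℝ) :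
    Integrable (fun r : ℝ => gd τ r * (Real.exp (-(r / 2)) * he x r)) := by
  refine (int_base hτ (-1 / 2)).mono' ?_ ?_
  · have h1 := gd_cont τ
    have h2 := he_cont x
    exact (by fun_prop : Continuous fun r : ℝ =>
      gd τ r * (Real.exp (-(r / 2)) * he x r)).aestronglyMeasurable
  · filter_upwards with r
    have h1 := gd_nonneg hτ r
    have h2 := he_le_one x r
    have h3 := (he_pos x r).le
    rw [Real.norm_of_nonneg (by positivity)]
    have h4 : Real.exp (-(r / 2)) = Real.exp (-1 / 2 * r) := by congr 1; ring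
    rw [h4]
    have h5 : Real.exp (-1 / 2 * r) * he x r ≤ Real.exp (-1 / 2 * r) := by
      have := Real.exp_pos (-1 / 2 * r)
      nlinarith
    gcongr

theorem int_id {τ : ℝ} (hτ : 0 < τ) : Integrable (fun r => gd τ r * r) := by
  refine ((int_base hτ 1).add (int_base hτ (-1))).mono' ?_ ?_
  · have h1 := gd_cont τ
    exact (by fun_prop : Continuous fun r : ℝ => gd τ r * r).aestronglyMeasurable
  · filter_upwards with r
    have h1 := gd_nonneg hτ r
    rw [norm_mul, Real.norm_of_nonneg h1, Real.norm_eq_abs]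
    show gd τ r * |r| ≤ gd τ r * Real.exp (1 * r) + gd τ r * Real.exp (-1 * r)
    rw [← mul_add]
    gcongr
    have h2 := Real.add_one_le_exp (1 * r)
    have h3 := Real.add_one_le_exp (-1 * r)
    have h4 := Real.exp_pos (1 * r)
    have h5 := Real.exp_pos (-1 * r)
    rcases abs_cases r with ⟨h, -⟩ | ⟨h, -⟩ <;> rw [h] <;> linarith

theorem gd_even (τ r : ℝ) : gd τ (-r) = gd τ r := by
  unfold gd; rw [neg_sq]

theorem integral_id {τ : ℝ} : ∫ r, gd τ r * r = 0 := by
  have h1 := integral_neg_eq_self (fun r : ℝ => gd τ r * r) volume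
  have h2 : ∫ r, gd τ (-r) * (-r) = -∫ r, gd τ r * r := by
    rw [← integral_neg]
    congr 1
    ext r
    rw [gd_even]
    ring
  rw [h2] at h1
  linarith

theorem Wt_lower_main : S_Wt_lower := by
  intro τ x hτ
  obtain ⟨a, ha⟩ : ∃ a : ℝ, a = Real.pi * x ^ 2 := ⟨_, rfl⟩
  obtain ⟨b, hb⟩ : ∃ b : ℝ, b = a * Real.exp (4 / τ ^ 2) := ⟨_, rfl⟩
  rw [show Real.pi * x ^ 2 * Real.exp (4 / τ ^ 2) = b by rw [hb, ha]]
  obtain ⟨i0, e0⟩ := gd_main τ 0 hτ
  obtain ⟨i2, e2⟩ := gd_main τ (-2) hτ
  have i1 := int_id hτ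
  have hpt : ∀ r : ℝ, Real.exp (-b) * ((1 + b) * (gd τ r * Real.exp (0 * r)) -
      1 / 2 * (gd τ r * r) - a * (gd τ r * Real.exp (-2 * r))) ≤
      gd τ r * (Real.exp (-(r / 2)) * he x r) := by
    intro r
    have h1 := gd_nonneg hτ r
    have h2 : Real.exp (-(r / 2)) * he x r = Real.exp (-b) *
        Real.exp (b + (-(r / 2) - a * Real.exp (-2 * r))) := by
      unfold he
      rw [← Real.exp_add, ← Real.exp_add]
      congr 1
      rw [ha, mul_pow, ← Real.exp_nat_mul]
      have : ((2 : ℕ) : ℝ) * -r = -2 * r := by push_cast; ring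
      rw [this]
      ring
    have h3 := Real.add_one_le_exp (b + (-(r / 2) - a * Real.exp (-2 * r)))
    rw [h2, zero_mul, Real.exp_zero, mul_one]
    have h4 : Real.exp (-b) * ((1 + b) * gd τ r - 1 / 2 * (gd τ r * r) -
        a * (gd τ r * Real.exp (-2 * r))) =
        gd τ r * (Real.exp (-b) * (b + (-(r / 2) - a * Real.exp (-2 * r)) + 1)) := by ring
    rw [h4]
    gcongr
  have hint : Integrable fun r : ℝ => Real.exp (-b) * ((1 + b) * (gd τ r * Real.exp (0 * r)) -
      1 / 2 * (gd τ r * r) - a * (gd τ r * Real.exp (-2 * r))) :=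
    (((i0.const_mul (1 + b)).sub (i1.const_mul (1 / 2))).sub (i2.const_mul a)).const_mul _
  have h5 := integral_mono hint (int_term hτ x) hpt
  have i01 : Integrable fun r : ℝ => (1 + b) * (gd τ r * Real.exp (0 * r)) -
      1 / 2 * (gd τ r * r) := (i0.const_mul (1 + b)).sub (i1.const_mul (1 / 2))
  rw [integral_const_mul, integral_sub i01 (i2.const_mul a),
    integral_sub (i0.const_mul (1 + b)) (i1.const_mul (1 / 2)),
    integral_const_mul, integral_const_mul, integral_const_mul, e0, e2, integral_id] at h5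
  have h6 : Real.exp (-b) * ((1 + b) * Real.exp (0 ^ 2 / τ ^ 2) - 1 / 2 * 0 -
      a * Real.exp ((-2) ^ 2 / τ ^ 2)) = Real.exp (-b) := by
    have h7 : ((-2 : ℝ)) ^ 2 / τ ^ 2 = 4 / τ ^ 2 := by norm_num
    have h8 : ((0 : ℝ)) ^ 2 / τ ^ 2 = 0 := by norm_num
    rw [h7, h8, Real.exp_zero, ← hb]
    ring
  rw [h6] at h5
  exact h5

/-! ### L7 -/

theorem he_le {X : ℝ} (hX : 0 < X) {m : ℤ} (hm : m ≠ 0) (r : ℝ) :
    he (m / X) r ≤ X ^ 2 * Real.exp (2 * r) * (1 / (m : ℝ) ^ 2) := by
  unfold he
  have hm' : (0 : ℝ) < (m : ℝ) ^ 2 := by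
    have : (m : ℝ) ≠ 0 := by exact_mod_cast hm
    positivity
  have h1 : (((m : ℝ) / X) * Real.exp (-r)) ^ 2 = (m : ℝ) ^ 2 / (X ^ 2 * Real.exp (2 * r)) := by
    rw [mul_pow, div_pow, ← Real.exp_nat_mul, show ((2 : ℕ) : ℝ) * -r = -(2 * r) by push_cast; ring,
      Real.exp_neg]
    field_simp
  rw [h1]
  obtain ⟨t, ht⟩ : ∃ t : ℝ, t = (m : ℝ) ^ 2 / (X ^ 2 * Real.exp (2 * r)) := ⟨_, rfl⟩
  have ht0 : 0 < t := by rw [ht]; positivity
  have h2 : X ^ 2 * Real.exp (2 * r) * (1 / (m : ℝ) ^ 2) = 1 / t := by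
    rw [ht]; field_simp
  rw [h2, ← ht, Real.exp_neg, one_div]
  apply inv_anti₀ ht0
  have h3 := Real.add_one_le_exp (Real.pi * t)
  have h4 : t ≤ Real.pi * t := by
    have := Real.pi_gt_three
    nlinarith
  linarith

theorem summ_sq : Summable fun m : ℤ => 1 / (m : ℝ) ^ 2 :=
  Real.summable_one_div_int_pow.mpr (by norm_num)

/-- bound of all the terms -/
theorem he_le' {X : ℝ} (hX : 0 < X) (m : ℤ) (r : ℝ) :
    he (m / X) r ≤ (if m = 0 then 1 else 0) + X ^ 2 * Real.exp (2 * r) * (1 / (m : ℝ) ^ 2) := by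
  by_cases hm : m = 0
  · rw [if_pos hm, hm]
    have h1 := he_le_one (((0 : ℤ) : ℝ) / X) r
    simp only [Int.cast_zero] at h1 ⊢
    norm_num
    simpa using h1
  · rw [if_neg hm, zero_add]
    exact he_le hX hm r

theorem summ_he {X : ℝ} (hX : 0 < X) (r : ℝ) : Summable fun m : ℤ => he (m / X) r := by
  refine Summable.of_nonneg_of_le (fun m => (he_pos _ _).le) (fun m => he_le' hX m r) ?_
  refine Summable.add ?_ (summ_sq.mul_left _)
  apply summable_of_hasFiniteSupport
  apply (Set.finite_singleton (0 : ℤ)).subset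
  intro m hm
  simp only [Function.mem_support, ne_eq, ite_eq_right_iff, one_ne_zero, imp_false, not_not] at hm
  exact hm

theorem exch_main : S_exch := by
  intro τ X f hτ hX hf
  obtain ⟨F, hF⟩ : ∃ F : ℤ → ℝ → ℝ, F = fun (m : ℤ) (r : ℝ) =>
    gd τ r * (Real.exp (-(r / 2)) * he (m / X) r) * f m := ⟨_, rfl⟩
  have hFi : ∀ m, Integrable (F m) := by
    intro m
    rw [hF]
    exact (int_term hτ _).mul_const _
  -- the norms
  have hn : ∀ m r, ‖F m r‖ ≤ (if m = 0 then 1 else 0) * (gd τ r * Real.exp (-1 / 2 * r)) +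
      X ^ 2 * (1 / (m : ℝ) ^ 2) * (gd τ r * Real.exp (3 / 2 * r)) := by
    intro m r
    have h1 := gd_nonneg hτ r
    have h2 := he_le' hX m r
    have h3 := (he_pos (m / X) r).le
    have h4 : ‖F m r‖ ≤ gd τ r * (Real.exp (-(r / 2)) * he (m / X) r) := by
      rw [hF]
      show ‖gd τ r * (Real.exp (-(r / 2)) * he (m / X) r) * f m‖ ≤ _
      rw [norm_mul, Real.norm_of_nonneg (by positivity), Real.norm_eq_abs]
      have := hf m
      have h5 : 0 ≤ gd τ r * (Real.exp (-(r / 2)) * he (m / X) r) := by positivity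
      nlinarith
    refine h4.trans ?_
    calc gd τ r * (Real.exp (-(r / 2)) * he (m / X) r) ≤
        gd τ r * (Real.exp (-(r / 2)) * ((if m = 0 then 1 else 0) +
          X ^ 2 * Real.exp (2 * r) * (1 / (m : ℝ) ^ 2))) := by gcongr
      _ = _ := by
          have h5 : Real.exp (3 / 2 * r) = Real.exp (-(r / 2)) * Real.exp (2 * r) := by
            rw [← Real.exp_add]; congr 1; ring
          have h6 : Real.exp (-1 / 2 * r) = Real.exp (-(r / 2)) := by congr 1; ring
          rw [h5, h6]
          ring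
  have hsum : Summable fun m => ∫ r, ‖F m r‖ := by
    refine Summable.of_nonneg_of_le (f := fun m : ℤ => (if m = 0 then 1 else 0) *
        (∫ r, gd τ r * Real.exp (-1 / 2 * r)) +
        X ^ 2 * (1 / (m : ℝ) ^ 2) * ∫ r, gd τ r * Real.exp (3 / 2 * r)) ?_ ?_ ?_
    · intro m
      exact integral_nonneg fun r => norm_nonneg _
    · intro m
      have h1 : ∫ r, ((if m = 0 then 1 else 0) * (gd τ r * Real.exp (-1 / 2 * r)) +
          X ^ 2 * (1 / (m : ℝ) ^ 2) * (gd τ r * Real.exp (3 / 2 * r))) =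
          (if m = 0 then 1 else 0) * (∫ r, gd τ r * Real.exp (-1 / 2 * r)) +
          X ^ 2 * (1 / (m : ℝ) ^ 2) * ∫ r, gd τ r * Real.exp (3 / 2 * r) := by
        rw [integral_add ((int_base hτ _).const_mul _) ((int_base hτ _).const_mul _),
          integral_const_mul, integral_const_mul]
      rw [← h1]
      exact integral_mono (hFi m).norm
        (((int_base hτ _).const_mul _).add ((int_base hτ _).const_mul _)) (hn m)
    · refine Summable.add ?_ ((summ_sq.mul_left _).mul_right _)
      apply summable_of_hasFiniteSupport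
      apply (Set.finite_singleton (0 : ℤ)).subset
      intro m hm
      by_contra hcon
      apply hm
      simp only [mem_singleton_iff] at hcon
      simp [hcon]
  have hsw : ∀ r, ∑' m, F m r = gd τ r * (Real.exp (-(r / 2)) * ∑' m : ℤ, he (m / X) r * f m) := by
    intro r
    rw [← tsum_mul_left, ← tsum_mul_left]
    apply tsum_congr
    intro m
    rw [hF]
    ring
  have hWf : ∀ m : ℤ, ∫ r, F m r = Wt τ (m / X) * f m := by
    intro m
    rw [hF]
    unfold Wt
    exact integral_mul_const _ _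
  have hmain := hasSum_integral_of_summable_integral_norm hFi hsum
  simp only [hWf, hsw] at hmain
  refine ⟨hmain.summable, ?_, hmain.tsum_eq⟩
  -- integrability of the sum
  obtain ⟨Z, hZ⟩ : ∃ Z : ℝ, Z = ∑' m : ℤ, 1 / (m : ℝ) ^ 2 := ⟨_, rfl⟩
  have hZ0 : 0 ≤ Z := by rw [hZ]; exact tsum_nonneg fun m => by positivity
  have hsf : ∀ r, Summable fun m : ℤ => he (m / X) r * f m := by
    intro r
    refine Summable.of_norm_bounded (g := fun m : ℤ => he (m / X) r) (summ_he hX r) ?_
    intro m
    rw [norm_mul, Real.norm_of_nonneg (he_pos _ _).le, Real.norm_eq_abs]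
    have := hf m
    have := (he_pos (m / X) r).le
    nlinarith
  have hdom : Integrable fun r : ℝ => gd τ r * Real.exp (-1 / 2 * r) +
      X ^ 2 * Z * (gd τ r * Real.exp (3 / 2 * r)) :=
    (int_base hτ _).add ((int_base hτ _).const_mul _)
  refine hdom.mono' ?_ ?_
  · have h1 := gd_cont τ
    have h2 : AEStronglyMeasurable (fun r : ℝ => ∑' m : ℤ, he (m / X) r * f m) volume := by
      have h3 : (fun r : ℝ => ∑' m : ℤ, he (m / X) r * f m) = fun r : ℝ =>
          (∑' m : ℤ, ENNReal.ofReal (max (he (m / X) r * f m) 0)).toReal -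
          (∑' m : ℤ, ENNReal.ofReal (max (-(he (m / X) r * f m)) 0)).toReal := by
        ext r
        have hs1 : Summable fun m : ℤ => max (he (m / X) r * f m) 0 := by
          refine Summable.of_nonneg_of_le (fun m => le_max_right _ _) (fun m => ?_) (hsf r).abs
          exact max_le (le_abs_self _) (abs_nonneg _)
        have hs2 : Summable fun m : ℤ => max (-(he (m / X) r * f m)) 0 := by
          refine Summable.of_nonneg_of_le (fun m => le_max_right _ _) (fun m => ?_) (hsf r).abs
          exact max_le (neg_le_abs _) (abs_nonneg _)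
        rw [← ENNReal.ofReal_tsum_of_nonneg (fun m => le_max_right _ _) hs1,
          ← ENNReal.ofReal_tsum_of_nonneg (fun m => le_max_right _ _) hs2,
          ENNReal.toReal_ofReal (tsum_nonneg fun m => le_max_right _ _),
          ENNReal.toReal_ofReal (tsum_nonneg fun m => le_max_right _ _), ← hs1.tsum_sub hs2]
        apply tsum_congr
        intro m
        rcases le_total 0 (he (m / X) r * f m) with h | h
        · rw [max_eq_left h, max_eq_right (by linarith)]; ring
        · rw [max_eq_right h, max_eq_left (by linarith)]; ring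
      rw [h3]
      have hc : ∀ m : ℤ, Measurable fun r : ℝ => he (m / X) r * f m := fun m =>
        ((he_cont _).measurable.mul_const _)
      apply Measurable.aestronglyMeasurable
      apply Measurable.sub
      · exact (Measurable.tsum fun m =>
          ((hc m).max measurable_const).ennreal_ofReal).ennreal_toReal
      · exact (Measurable.tsum fun m =>
          ((hc m).neg.max measurable_const).ennreal_ofReal).ennreal_toReal
    exact h1.aestronglyMeasurable.mul
      ((by fun_prop : Continuous fun r : ℝ => Real.exp (-(r / 2))).aestronglyMeasurable.mul h2)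
  · filter_upwards with r
    have h1 := gd_nonneg hτ r
    have h2 : ‖∑' m : ℤ, he (m / X) r * f m‖ ≤ 1 + X ^ 2 * Real.exp (2 * r) * Z := by
      have hs1 : Summable fun m : ℤ => ((if m = 0 then (1 : ℝ) else 0)) := by
        apply summable_of_hasFiniteSupport
        apply (Set.finite_singleton (0 : ℤ)).subset
        intro m hm
        simp only [Function.mem_support, ne_eq, ite_eq_right_iff, one_ne_zero, imp_false,
          not_not] at hm
        exact hm
      have hs2 : Summable fun m : ℤ => X ^ 2 * Real.exp (2 * r) * (1 / (m : ℝ) ^ 2) :=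
        summ_sq.mul_left _
      have h3 : HasSum (fun m : ℤ => ((if m = 0 then (1 : ℝ) else 0)) +
          X ^ 2 * Real.exp (2 * r) * (1 / (m : ℝ) ^ 2)) (1 + X ^ 2 * Real.exp (2 * r) * Z) := by
        have h4 := hs1.hasSum.add hs2.hasSum
        rw [tsum_ite_eq, tsum_mul_left, ← hZ] at h4
        exact h4
      refine tsum_of_norm_bounded h3 ?_
      intro m
      rw [norm_mul, Real.norm_of_nonneg (he_pos _ _).le, Real.norm_eq_abs]
      have h5 := hf m
      have h6 := (he_pos (m / X) r).le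
      have h7 := he_le' hX m r
      nlinarith
    rw [norm_mul, norm_mul, Real.norm_of_nonneg h1, Real.norm_of_nonneg (Real.exp_pos _).le]
    calc gd τ r * (Real.exp (-(r / 2)) * ‖∑' m : ℤ, he (m / X) r * f m‖) ≤
        gd τ r * (Real.exp (-(r / 2)) * (1 + X ^ 2 * Real.exp (2 * r) * Z)) := by gcongr
      _ = _ := by
          have h5 : Real.exp (3 / 2 * r) = Real.exp (-(r / 2)) * Real.exp (2 * r) := by
            rw [← Real.exp_add]; congr 1; ring
          have h6 : Real.exp (-1 / 2 * r) = Real.exp (-(r / 2)) := by congr 1; ring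
          rw [h5, h6]
          ring

/-! ### L8 -/

theorem tsum_odd {g : ℤ → ℝ} (h : ∀ m, g (-m) = -g m) : ∑' m : ℤ, g m = 0 := by
  have h1 := (Equiv.neg ℤ).tsum_eq g
  have h2 : ∑' m : ℤ, g ((Equiv.neg ℤ) m) = -∑' m : ℤ, g m := by
    rw [← tsum_neg]
    apply tsum_congr
    intro m
    exact h m
  rw [h2] at h1
  linarith

theorem pois_main : S_pois := by
  intro p p' X r hp hp' h2 h2' hne hX
  have ho : Odd p := hp.odd_of_ne_two h2
  have ho' : Odd p' := hp'.odd_of_ne_two h2'
  have hq : Odd (p * p') := ho.mul ho'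
  have hX' : 0 < X * Real.exp r := by positivity
  have hp0 : (0 : ℝ) < p := by exact_mod_cast hp.pos
  have hp0' : (0 : ℝ) < p' := by exact_mod_cast hp'.pos
  rcases Nat.odd_mod_four_iff.mp (Nat.odd_iff.mp hq) with h4 | h4
  · have hs : Squarefree (p * p') := by
      rw [Nat.squarefree_mul ((Nat.coprime_primes hp hp').mpr hne)]
      exact ⟨hp.prime.squarefree, hp'.prime.squarefree⟩
    have h := Pool.Agent.H268R2.RZHT.HT (p * p') hq hs h4 (Real.exp (-r) / X) (by positivity)
    have e1 : ∀ m : ℤ, he (m / X) r * js m (p * p') =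
        Real.exp (-(Real.pi * (m : ℝ) ^ 2 * (Real.exp (-r) / X) ^ 2)) * js m (p * p') := by
      intro m
      unfold he
      congr 3
      field_simp
    have e2 : ∀ k : ℤ, Real.exp (-(Real.pi * (k * (X * Real.exp r) / (p * p' : ℝ)) ^ 2)) *
        js k (p * p') = Real.exp (-(Real.pi * (k : ℝ) ^ 2 / ((((p * p' : ℕ)) : ℝ) ^ 2 *
          (Real.exp (-r) / X) ^ 2))) * js k (p * p') := by
      intro k
      congr 3
      rw [Real.exp_neg]
      push_cast
      field_simp
    simp only [e1, e2]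
    rw [h]
    congr 1
    rw [Real.exp_neg]
    push_cast
    field_simp
  · have hj : ∀ m : ℤ, js (-m) (p * p') = -js m (p * p') := by
      intro m
      unfold js
      rw [jacobiSym.neg m hq, ZMod.χ₄_nat_three_mod_four h4]
      push_cast
      ring
    rw [tsum_odd, tsum_odd, mul_zero]
    · intro m
      rw [hj]
      have : (((-m : ℤ) : ℝ) * (X * Real.exp r) / (p * p' : ℝ)) ^ 2 =
          ((m : ℝ) * (X * Real.exp r) / (p * p' : ℝ)) ^ 2 := by
        push_cast
        ring
      rw [this]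
      ring
    · intro m
      rw [hj]
      have : he ((-m : ℤ) / X) r = he (m / X) r := by
        unfold he
        congr 2
        push_cast
        ring
      rw [this]
      ring

end Pool.Agent.N253.QF
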